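import Mathlib
import Pool.Agent.H770R2.Spec.Props

/-! The distance of an invertible element to the non-invertible elements of a C*-algebra:
with `c = b⁻¹` the number `‖c‖²` is in the spectrum of `c c*`, so that
`c (‖c‖² (b - ‖c‖⁻² c*)) = ‖c‖² - c c*` is not invertible. -/

open scoped ComplexOrder InnerProductSpace
open Filter

noncomputable section

namespace H770R2.Spec

theorem prove_sing : P_sing := by
  intro B _ _ b
  let _ := CStarAlgebra.spectralOrder B
  let _ := CStarAlgebra.spectralOrderedRing B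
  set c : B := ((b⁻¹ : Bˣ) : B) with hc
  have hc0 : c ≠ 0 := (b⁻¹).ne_zero
  have hn : ‖c‖ ≠ 0 := norm_ne_zero_iff.2 hc0
  have hpos : 0 ≤ c * star c := mul_star_self_nonneg c
  have hmem : ‖c * star c‖ ∈ spectrum ℝ (c * star c) :=
    CStarAlgebra.norm_mem_spectrum_of_nonneg hpos
  have hnn : ‖c * star c‖ = ‖c‖ ^ 2 := by
    rw [CStarRing.norm_self_mul_star, sq]
  rw [hnn, spectrum.mem_iff] at hmem
  refine ⟨-((‖c‖ ^ 2)⁻¹ • star c), ?_, ?_⟩
  · rw [norm_neg, norm_smul, norm_star, norm_inv, norm_pow, norm_norm]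
    apply le_of_eq
    field_simp
  · intro hu
    apply hmem
    have h1 : algebraMap ℝ B (‖c‖ ^ 2) - c * star c =
        c * (algebraMap ℝ B (‖c‖ ^ 2) * ((b : B) + -((‖c‖ ^ 2)⁻¹ • star c))) := by
      rw [Algebra.algebraMap_eq_smul_one, smul_mul_assoc, one_mul, smul_add, smul_neg, smul_smul,
        mul_inv_cancel₀ (pow_ne_zero 2 hn), one_smul, mul_add, mul_smul_comm, mul_neg,
        show c * (b : B) = 1 from b.inv_mul, sub_eq_add_neg]
    rw [h1]
    have h2 : IsUnit (algebraMap ℝ B (‖c‖ ^ 2)) :=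
      (isUnit_iff_ne_zero.2 (pow_ne_zero 2 hn)).map (algebraMap ℝ B)
    exact (b⁻¹).isUnit.mul (h2.mul hu)

end H770R2.Spec
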